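import Mathlib

namespace Pool.Agent.Results.MP_3301e6_mp.Both

open MvPolynomial

/-- differential polynomials, `X (i, n)` is the `n`-th `x`-derivative of `u^i` -/
abbrev Jet (N : ℕ) := MvPolynomial (Fin N × ℕ) ℝ

/-- tensors with polynomial entries in `u^1, ..., u^N` -/
abbrev Fn (N : ℕ) := MvPolynomial (Fin N) ℝ

/-- total `x`-derivative -/
noncomputable def Dx (N : ℕ) : Derivation ℝ (Jet N) (Jet N) :=
  mkDerivation ℝ fun v => X (v.1, v.2 + 1)

/-- derivative along the flow `u_t = F` -/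
noncomputable def flow {N : ℕ} (F : Fin N → Jet N) : Derivation ℝ (Jet N) (Jet N) :=
  mkDerivation ℝ fun v => (Dx N)^[v.2] (F v.1)

/-- coefficient of the cubic term -/
noncomputable def cub {N : ℕ} (α : Fin N → Fin N → Fin N → Fn N)
    (β : Fin N → Fin N → Fin N → Fin N → Fn N) (i j k m : Fin N) : Fn N :=
  pderiv j (α i k m) + 2 * ∑ r, α i j r * α r k m - ∑ r, α i r j * α r k m + β i j k m

/-- right-hand side of the system -/
noncomputable def rhs {N : ℕ} (α : Fin N → Fin N → Fin N → Fn N)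
    (β : Fin N → Fin N → Fin N → Fin N → Fn N) (i : Fin N) : Jet N :=
  X (i, 3) + 3 * ∑ j, ∑ k, rename (·, 0) (α i j k) * X (j, 1) * X (k, 2) +
    ∑ j, ∑ k, ∑ m, rename (·, 0) (cub α β i j k m) * X (j, 1) * X (k, 1) * X (m, 1)

/-- curvature tensor -/
noncomputable def curv {N : ℕ} (α : Fin N → Fin N → Fin N → Fn N) (i j k l : Fin N) : Fn N :=
  pderiv k (α i j l) - pderiv l (α i j k) + ∑ s, α i s k * α s j l - ∑ s, α i s l * α s j k

/-- higher symmetries of arbitrarily high order -/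
def Integrable {N : ℕ} (F : Fin N → Jet N) : Prop :=
  ∀ n₀, ∃ n ≥ n₀, ∃ G : Fin N → Jet N, (∀ i, G i - X (i, n) ∈ supported ℝ {v | v.2 < n}) ∧
    ∀ i, flow F (G i) = flow G (F i)

noncomputable def S (k : ℕ) : Derivation ℝ (Jet 3) (Jet 3) :=
  mkDerivation ℝ fun v => X (v.1, v.2 + k)

noncomputable def Φ : Fn 3 →ₗ[ℝ] Jet 3 :=
  (basisMonomials (Fin 3) ℝ).constr ℝ fun m => (X (0, m 0) + X (1, m 0)) * X (0, m 1) * X (1, m 2)

lemma Φ_mon (m : Fin 3 →₀ ℕ) (c : ℝ) :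
    Φ (monomial m c) = c • ((X (0, m 0) + X (1, m 0)) * X (0, m 1) * X (1, m 2)) := by
  rw [← mul_one c, ← smul_eq_mul, ← smul_monomial, map_smul, smul_eq_mul, mul_one]
  exact congrArg _ ((basisMonomials (Fin 3) ℝ).constr_basis ℝ _ m)

lemma der_Φ (D : Derivation ℝ (Jet 3) (Jet 3)) (k : ℕ)
    (h0 : ∀ n, D (X (0, n)) = X (0, n + k)) (h1 : ∀ n, D (X (1, n)) = X (1, n + k)) (p : Fn 3) :
    D (Φ p) = Φ ((X 0 ^ k + X 1 ^ k + X 2 ^ k) * p) := by
  induction p using MvPolynomial.induction_on' with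
  | add p q hp hq => simp [mul_add, hp, hq]
  | monomial m c =>
    simp only [add_mul, X_pow_eq_monomial, monomial_mul, map_add, Φ_mon, Derivation.map_smul,
      Derivation.leibniz, h0, h1, one_mul, ← smul_add, smul_eq_mul]
    congr 1
    simp [add_comm k]
    ring

lemma Dx_X (i : Fin 3) (m n : ℕ) : (Dx 3)^[n] (X (i, m)) = X (i, m + n) := by
  induction n with
  | zero => rfl
  | succ n ih => rw [Function.iterate_succ_apply', ih]; simp [Dx, add_assoc]

lemma Dx_Φ (n : ℕ) (m : ℕ) (p : Fn 3) : (Dx 3)^[n] (X (2, m) + Φ p) =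
    X (2, m + n) + Φ ((X 0 + X 1 + X 2) ^ n * p) := by
  induction n with
  | zero => simp
  | succ n ih =>
    rw [Function.iterate_succ_apply', ih, map_add, der_Φ _ 1 (by simp [Dx]) (by simp [Dx]),
      pow_succ' _ n]
    simp [Dx, add_assoc, mul_assoc]

lemma quot (k : ℕ) : ∃ q : Fn 3, q.IsHomogeneous (2 * k) ∧
    q * ((X 0 + X 1 + X 2) ^ 3 - (X 0 ^ 3 + X 1 ^ 3 + X 2 ^ 3)) =
      (X 0 + X 1 + X 2) ^ (2 * k + 3) - (X 0 ^ (2 * k + 3) + X 1 ^ (2 * k + 3) + X 2 ^ (2 * k + 3)) := by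
  have x : ∀ i, (X i : Fn 3).IsHomogeneous 1 := isHomogeneous_X ℝ
  have s1 := ((x 0).add (x 1)).add (x 2)
  have s2 := (s1.pow 2).sub ((((x 0).mul (x 1)).add ((x 0).mul (x 2))).add ((x 1).mul (x 2)))
  have s4 := s1.mul (((x 0).mul (x 1)).mul (x 2))
  have sq := fun n => (isHomogeneous_C (Fin 3) (1 / 3 : ℝ)).mul
    ((((s1.pow n).add ((x 0).pow n)).add ((x 1).pow n)).add ((x 2).pow n))
  have c : (C (1 / 3 : ℝ) : Fn 3) * 3 = 1 := by
    rw [show (3 : Fn 3) = C 3 from rfl, ← map_mul]; norm_num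
  induction k using Nat.twoStepInduction with
  | zero => exact ⟨1, isHomogeneous_one _ _, by simp⟩
  | one =>
    refine ⟨_, s2.add (sq 2), ?_⟩
    linear_combination ((X 0 + X 1) * (X 0 + X 2) * (X 1 + X 2) *
      ((X 0 + X 1 + X 2) ^ 2 + X 0 ^ 2 + X 1 ^ 2 + X 2 ^ 2)) * c
  | more k h1 h2 =>
    obtain ⟨q1, a1, b1⟩ := h1
    obtain ⟨q2, a2, b2⟩ := h2
    refine ⟨_, (((show 1 * 2 + 2 * (k + 1) = 2 * (k + 2) by ring) ▸ s2.mul a2).add
      ((show 0 + 1 * (2 * k + 4) = 2 * (k + 2) by ring) ▸ sq (2 * k + 4))).add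
      ((show 1 + (1 + 1 + 1) + 2 * k = 2 * (k + 2) by ring) ▸ s4.mul a1), ?_⟩
    linear_combination ((X 0 + X 1 + X 2) ^ 2 - (X 0 * X 1 + X 0 * X 2 + X 1 * X 2)) * b2 +
      (X 0 + X 1 + X 2) * (X 0 * X 1 * X 2) * b1 + ((X 0 + X 1) * (X 0 + X 2) * (X 1 + X 2) *
      ((X 0 + X 1 + X 2) ^ (2 * k + 4) + X 0 ^ (2 * k + 4) + X 1 ^ (2 * k + 4) +
        X 2 ^ (2 * k + 4))) * c

lemma supp (r : Fn 3) (n : ℕ) (h : r.IsHomogeneous n) :
    Φ (X 1 * X 2 * r) ∈ supported ℝ {v : Fin 3 × ℕ | v.2 < n + 2} := by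
  rw [r.as_sum, Finset.mul_sum, map_sum]
  refine sum_mem fun m hm => ?_
  have e : m 0 + m 1 + m 2 = n := by
    rw [← Fin.sum_univ_three (fun i => m i), ← Finsupp.degree_eq_sum]
    by_contra e
    exact mem_support_iff.1 hm (h.coeff_eq_zero e)
  rw [X, X, monomial_mul, monomial_mul, Φ_mon]
  refine Subalgebra.smul_mem _ (mul_mem (mul_mem (add_mem ?_ ?_) ?_) ?_) _ <;>
    refine X_mem_supported.2 ?_ <;> simp <;> omega

noncomputable def fl (n : ℕ) (p : Fn 3) : Fin 3 → Jet 3 := ![X (0, n), X (1, n), X (2, n) + Φ p]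

lemma flow_fl (n m : ℕ) (p q : Fn 3) (i : Fin 3) : flow (fl n p) (fl m q i) = X (i, n + m) +
    if i = 2 then Φ ((X 0 + X 1 + X 2) ^ m * p + (X 0 ^ n + X 1 ^ n + X 2 ^ n) * q) else 0 := by
  have h0 : ∀ k, flow (fl n p) (X (0, k)) = X (0, k + n) := fun k => by
    simp [flow, fl, Dx_X, add_comm]
  have h1 : ∀ k, flow (fl n p) (X (1, k)) = X (1, k + n) := fun k => by
    simp [flow, fl, Dx_X, add_comm]
  fin_cases i
  · simpa [fl, add_comm] using h0 m
  · simpa [fl, add_comm] using h1 m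
  · change flow (fl n p) (X (2, m) + Φ q) = X (2, n + m) + Φ _
    rw [map_add, der_Φ _ n h0 h1, map_add Φ, ← add_assoc, ← Dx_Φ]
    simp [flow, fl]

theorem result : ∃ (α : Fin 3 → Fin 3 → Fin 3 → Fn 3) (β : Fin 3 → Fin 3 → Fin 3 → Fin 3 → Fn 3),
    (∀ i j k m, β i j k m = β i k j m ∧ β i j k m = β i j m k) ∧ Integrable (rhs α β) ∧
      (∃ i j k, α i j k - α i k j ≠ 0) ∧ curv α ≠ 0 ∧ curv (fun i j k => α i k j) ≠ 0 := by
  refine ⟨fun i j k => if i = 2 ∧ j = 0 ∧ k = 1 then X 0 + X 1 else 0, 0, by simp, fun k => ?_,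
    ⟨2, 0, 1, ?_⟩, fun h => ?_, fun h => ?_⟩
  · have e : rhs (fun i j k : Fin 3 => if i = 2 ∧ j = 0 ∧ k = 1 then X 0 + X 1 else 0) 0 =
        fl 3 (X 1 * X 2 * (3 * X 2 + X 0)) := by
      have : Φ (X 1 * X 2 * (3 * X 2 + X 0)) = 3 * ((X (0, 0) + X (1, 0)) * X (0, 1) * X (1, 2)) +
          (X (0, 1) + X (1, 1)) * X (0, 1) * X (1, 1) := by
        rw [show (3 : Fn 3) = C 3 from rfl, show (3 : Jet 3) = C 3 from rfl, C_mul', C_mul', mul_add,
          mul_smul_comm, map_add, map_smul]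
        simp only [X, monomial_mul, Φ_mon]
        simp
      funext i
      fin_cases i <;> simp [rhs, cub, fl, Fin.sum_univ_three, this, pderiv_X]
      ring
    obtain ⟨q, hq, e'⟩ := quot k
    refine ⟨2 * k + 3, by omega, fl (2 * k + 3) (X 1 * X 2 * ((3 * X 2 + X 0) * q)), fun i => ?_,
      fun i => ?_⟩
    · fin_cases i
      · simp [fl]
      · simp [fl]
      · have := supp _ _ ((((isHomogeneous_C _ (3 : ℝ)).mul (isHomogeneous_X ℝ (2 : Fin 3))).add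
          (isHomogeneous_X ℝ 0)).mul hq)
        rw [show (C 3 : Fn 3) = 3 from rfl] at this
        simpa [fl, show 1 + 2 * k + 2 = 2 * k + 3 by ring] using this
    · rw [e, flow_fl, flow_fl, add_comm 3]
      congr 3
      linear_combination -(X 1 * X 2 * (3 * X 2 + X 0)) * e'
  · simpa using fun h => by simpa using congrArg (eval 1) h
  · simpa [curv, pderiv_X] using congrFun (congrFun (congrFun (congrFun h 2) 0) 0) 1
  · simpa [curv, pderiv_X] using congrFun (congrFun (congrFun (congrFun h 2) 1) 1) 0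

end Pool.Agent.Results.MP_3301e6_mp.Both
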